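import Pool.Agent.H6.TP.Targets

/-!
# top_modules, row LIO
-/

set_option autoImplicit false

open Finset Pool.Agent.H6.N4D

namespace Pool.Agent.H86.TOPM.LIO

open Pool.Agent.H6.TP

theorem pf_LIO : T_LIO := by
  intro lam h n
  induction n using Nat.strong_induction_on with
  | _ n ih =>
    intro hn
    by_cases h1 : n = 1
    · subst h1
      simp [Pool.Agent.H24.MR.lam]
    · have hp : (n.minFac).Prime := Nat.minFac_prime h1
      obtain ⟨k, hk⟩ := Nat.minFac_dvd n
      have hk1 : 1 ≤ k := by
        rcases Nat.eq_zero_or_pos k with h0 | h0
        · rw [h0, mul_zero] at hk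
          omega
        · exact h0
      have hkn : k < n := by
        rw [hk]
        have := hp.two_le
        nlinarith
      have h2 := ih k hkn hk1
      have h3 : lam n = - lam k := by
        conv_lhs => rw [hk]
        exact h.pr _ _ hp hk1
      have h4 : Pool.Agent.H24.MR.lam n = - Pool.Agent.H24.MR.lam k := by
        unfold Pool.Agent.H24.MR.lam
        conv_lhs => rw [hk]
        rw [ArithmeticFunction.cardFactors_mul hp.ne_zero (by omega),
          ArithmeticFunction.cardFactors_apply_prime hp, pow_add, pow_one, neg_one_mul]
      rw [h3, h2, h4, mul_neg]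

end Pool.Agent.H86.TOPM.LIO
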