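import Pool.Agent.H6.TP.Targets

/-!
# top_modules, row TOP: from the energy at one scale to the structure of almost all windows
-/

set_option autoImplicit false

open Finset Pool.Agent.H6.N4D

namespace Pool.Agent.H86.TOPM.TOP

open Pool.Agent.H6.TP

/-- fewer conditions -/
lemma gen_mono {R R' : ℕ} {η θ : ℝ} (h : R' ≤ R) (hg : Gen R η θ) : Gen R' η θ :=
  fun q h1 h2 => hg q h1 (h2.trans h)

open Classical in
theorem pf_TOP (hGEN : T_GEN) (hUPM : T_UPM) (hCSA : T_CSA) (hCSM : T_CSM) (hPHS : T_PHS)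
    (hENP : T_ENP) (hPTW : T_PTW) : T_TOP := by
  intro δ Q hδ
  obtain ⟨η, X1, Y1, hη, hG1⟩ := hGEN Q (δ / 4) (by linarith)
  refine ⟨η, hη, fun e he => ?_⟩
  set ρ : ℝ := min (e / 16) (1 / 4) with hρdef
  have hρ0 : 0 < ρ := lt_min (by linarith) (by norm_num)
  have hρ1 : ρ ≤ 1 / 4 := min_le_right _ _
  have hρe : ρ ≤ e / 16 := min_le_left _ _
  set κ₂ : ℝ := min (ρ * e / 4) (1 / 50) with hκ₂def
  have hκ0 : 0 < κ₂ := lt_min (by positivity) (by norm_num)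
  have hκ1 : κ₂ ≤ 1 / 50 := min_le_right _ _
  have hκe : κ₂ ≤ ρ * e / 4 := min_le_left _ _
  obtain ⟨κ, s, X2, hκ, hs, hsκ, hE⟩ := hENP (κ₂ / 2) (δ / 4) (by linarith) (by linarith)
  obtain ⟨R1, hR1⟩ := hUPM s hs
  obtain ⟨R2, hR2⟩ := hCSA s hs
  obtain ⟨R3, hR3⟩ := hCSM ρ hρ0 hρ1
  obtain ⟨η', X3, Y3, hη', hG2⟩ := hGEN (max R1 (max R2 R3)) (min κ (δ / 4))
    (lt_min hκ (by linarith))
  obtain ⟨N1, hN1⟩ := hR1 η' hη'
  obtain ⟨N2, hN2⟩ := hR2 η' hη'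
  obtain ⟨N3, hN3⟩ := hR3 η' hη'
  refine ⟨κ, max (max X1 X2) (max X3 1), max (max (max Y1 Y3) (max N1 N2)) (max N3 1), hκ, ?_⟩
  intro X Y lam hX hY hYX hlam hen
  have hX1 : X1 ≤ X := (le_max_left _ _).trans ((le_max_left _ _).trans hX)
  have hX2 : X2 ≤ X := (le_max_right _ _).trans ((le_max_left _ _).trans hX)
  have hX3 : X3 ≤ X := (le_max_left _ _).trans ((le_max_right _ _).trans hX)
  have hX4 : 1 ≤ X := (le_max_right _ _).trans ((le_max_right _ _).trans hX)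
  have hY1 : Y1 ≤ Y := by omega
  have hY3 : Y3 ≤ Y := by omega
  have hYN1 : N1 ≤ Y := by omega
  have hYN2 : N2 ≤ Y := by omega
  have hYN3 : N3 ≤ Y := by omega
  have hY0 : 1 ≤ Y := by omega
  have hlog : 0 ≤ Real.log X := Real.log_nonneg hX4
  have habs := lio_abs hlam
  have hpi : 0.63 < 2 / Real.pi := by
    rw [lt_div_iff₀ Real.pi_pos]
    have := Real.pi_lt_d2
    norm_num at this ⊢
    linarith
  -- the three exceptional sets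
  have hA := hG1 X Y lam hX1 hY1 hYX hlam
  have hB := hG2 X Y lam hX3 hY3 hYX hlam
  set E : ℕ → Prop := fun n => ∃ θ : ℝ, 3 / 5 ≤ cor lam Y n θ ∧
    ¬ Gen (max R1 (max R2 R3)) η' θ with hEdef
  have hB1 : ∑ n ∈ (Icc 1 ⌊X⌋₊).filter E, 1 / (n : ℝ) ≤ κ * Real.log X :=
    hB.trans (mul_le_mul_of_nonneg_right (min_le_left _ _) hlog)
  have hB2 : ∑ n ∈ (Icc 1 ⌊X⌋₊).filter E, 1 / (n : ℝ) ≤ δ / 4 * Real.log X :=
    hB.trans (mul_le_mul_of_nonneg_right (min_le_right _ _) hlog)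
  have hnE : ∀ n, ¬ E n → ∀ θ : ℝ, 3 / 5 ≤ cor lam Y n θ → Gen (max R1 (max R2 R3)) η' θ := by
    intro n hn θ h1
    by_contra h2
    exact hn ⟨θ, h1, h2⟩
  have hD := hE X (fun n => Mx lam Y n) E hX2
    (fun n => ⟨Mx_nonneg habs Y n, Mx_le_one habs Y n⟩)
    (fun n _ hn => hN1 Y n lam hYN1 habs
      (fun θ h1 => gen_mono (le_max_left _ _) (hnE n hn θ h1))) hB1 hen
  have hsub : (Icc 1 ⌊X⌋₊).filter (fun n : ℕ => ¬ GW lam Q η e Y n) ⊆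
      ((Icc 1 ⌊X⌋₊).filter (fun n : ℕ => ∃ θ : ℝ, 3 / 5 ≤ cor lam Y n θ ∧ ¬ Gen Q η θ) ∪
        (Icc 1 ⌊X⌋₊).filter E) ∪
        (Icc 1 ⌊X⌋₊).filter (fun n => Mx lam Y n < 2 / Real.pi - κ₂ / 2) := by
    intro n hn
    obtain ⟨hn1, hn2⟩ := Finset.mem_filter.mp hn
    by_contra hcon
    rw [Finset.mem_union, Finset.mem_union, Finset.mem_filter, Finset.mem_filter,
      Finset.mem_filter] at hcon
    push Not at hcon
    obtain ⟨⟨hc1, hc2⟩, hc3⟩ := hcon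
    have hc1' := hc1 hn1
    have hc2' := hc2 hn1
    have hc3' := hc3 hn1
    obtain ⟨θ, hθ⟩ := exists_cor (lam := lam) (N := Y) (n := n) (c := 2 / Real.pi - κ₂)
      (by linarith)
    have h35 : 3 / 5 ≤ cor lam Y n θ := by
      norm_num at hpi
      linarith
    have hgR := hnE n hc2' θ h35
    have hgQ : Gen Q η θ := hc1' θ h35
    obtain ⟨⟨φ, hφ⟩, -⟩ := hPHS lam Y n θ hY0
    have h1 := hN2 Y hYN2 n θ φ (gen_mono ((le_max_left _ _).trans (le_max_right _ _)) hgR)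
    have h2 := hN3 Y hYN3 n θ φ (gen_mono ((le_max_right _ _).trans (le_max_right _ _)) hgR)
    have h3 : 4 * ρ + (κ₂ + s) / (2 * ρ) ≤ e := by
      have h4 : (κ₂ + s) / (2 * ρ) ≤ e / 4 := by
        rw [div_le_iff₀ (by positivity)]
        nlinarith
      linarith
    have h4 := hPTW lam n Y θ φ ρ κ₂ s e hY0 hρ0 hκ0.le hs.le (lio_sq hlam)
      (by rw [hφ]; exact hθ.le) (by linarith [(abs_le.mp h1).2])
      (by convert h2) h3
    exact hn2 ⟨θ, φ, hgQ, h4⟩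
  calc ∑ n ∈ (Icc 1 ⌊X⌋₊).filter (fun n : ℕ => ¬ GW lam Q η e Y n), 1 / (n : ℝ)
      ≤ ∑ n ∈ ((Icc 1 ⌊X⌋₊).filter (fun n : ℕ => ∃ θ : ℝ, 3 / 5 ≤ cor lam Y n θ ∧
          ¬ Gen Q η θ) ∪ (Icc 1 ⌊X⌋₊).filter E) ∪
          (Icc 1 ⌊X⌋₊).filter (fun n => Mx lam Y n < 2 / Real.pi - κ₂ / 2), 1 / (n : ℝ) :=
        Finset.sum_le_sum_of_subset_of_nonneg hsub fun n _ _ => by positivity
    _ ≤ (∑ n ∈ (Icc 1 ⌊X⌋₊).filter (fun n : ℕ => ∃ θ : ℝ, 3 / 5 ≤ cor lam Y n θ ∧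
          ¬ Gen Q η θ), 1 / (n : ℝ) + ∑ n ∈ (Icc 1 ⌊X⌋₊).filter E, 1 / (n : ℝ)) +
          ∑ n ∈ (Icc 1 ⌊X⌋₊).filter (fun n => Mx lam Y n < 2 / Real.pi - κ₂ / 2),
            1 / (n : ℝ) := by
        have hun : ∀ A B : Finset ℕ, ∑ n ∈ A ∪ B, 1 / (n : ℝ) ≤
            ∑ n ∈ A, 1 / (n : ℝ) + ∑ n ∈ B, 1 / (n : ℝ) := by
          intro A B
          rw [← Finset.sum_union_inter]
          have : 0 ≤ ∑ n ∈ A ∩ B, 1 / (n : ℝ) := Finset.sum_nonneg fun n _ => by positivity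
          linarith
        exact (hun _ _).trans (add_le_add (hun _ _) le_rfl)
    _ ≤ δ * Real.log X := by
        have h5 : 0 ≤ δ * Real.log X := by positivity
        linarith

end Pool.Agent.H86.TOPM.TOP
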